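import Pool.Agent.N81.Cay.Norm

/-!
Problem MP_688fd0_co: closed listing sequences (Hamiltonian cycles of Cayley graphs) from a
Hamiltonian cycle of a subgroup and a single square of the Cayley graph for each further generator.

The left cosets of the subgroup carry copies of its cycle. They are joined along squares which are
attached to pairwise different edges of these cycles and which form a spanning tree of the cosets;
such a system of squares is found by a weighted cut bound for Cayley graphs and an exchange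
argument.
-/

namespace Pool.Agent.Results.MP_688fd0_co.SquareLinks

open Pool.Agent.R759.HC Pool.Agent.N81.Cay

universe u

/-- `a_1, …, a_n ∈ A`, where `n = |G|`, have pairwise distinct partial products
`a_1, a_1 a_2, …, a_1 ⋯ a_n`, the last of which is `1`. -/
def ClosedListing {G : Type u} [Group G] (A : Set G) (a : Fin (Nat.card G) → G) : Prop :=
  (∀ i, a i ∈ A) ∧
  Function.Injective (fun k : Fin (Nat.card G) => ((List.ofFn a).take (k.val + 1)).prod) ∧
  (List.ofFn a).prod = 1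

/-- `τ` runs once through the subgroup `H`, by right multiplications by elements of `A`: a closed
listing of `H` by elements of `A`, that is, a Hamiltonian cycle of `Cay(H, A ∩ H)` with a
direction. -/
structure RunsThrough {G : Type u} [Group G] (A : Set G) (H : Subgroup G) (τ : Equiv.Perm H) :
    Prop where
  step : ∀ x : H, (x : G)⁻¹ * (τ x : G) ∈ A
  cycle : ∀ x y : H, τ.SameCycle x y

/-- All pairs `{x, x z}` with `x ∈ H` are edges of the cycle `τ`. -/
def AllEdges {G : Type u} [Group G] (H : Subgroup G) (τ : Equiv.Perm H) (z : G) : Prop :=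
  ∀ x : H, (τ x : G) = x * z ∨ ∃ y : H, (y : G) = x * z ∧ τ y = x

/-- The elements `c` of `A` such that `s⁻¹ c s' ∈ A` for some `s, s' ∈ Z`: then
`x, x c, x c s', x s` is a square of `Cay(G, A)` for every `x`, if `Z ⊆ A`. -/
def Squares {G : Type u} [Group G] (A Z : Set G) : Set G :=
  {c | c ∈ A ∧ ∃ s ∈ Z, ∃ s' ∈ Z, s⁻¹ * c * s' ∈ A}

theorem cycOn_of_runs {G : Type u} [Group G] {A : Set G} {H : Subgroup G}
    {τ : Equiv.Perm H} (h : RunsThrough A H τ) :
    ∃ τ' : Equiv.Perm G, CycOn A (H : Set G) τ' ∧ ∀ x : H, τ' x = τ x := by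
  classical
  let τ' : Equiv.Perm G := Equiv.Perm.ofSubtype τ
  have h1 : ∀ x : H, τ' x = τ x := fun x => Equiv.Perm.ofSubtype_apply_coe τ x
  refine ⟨τ', ⟨fun x hx => Equiv.Perm.ofSubtype_apply_of_not_mem τ hx, ?_, ?_, ?_⟩, h1⟩
  · intro x hx
    rw [h1 ⟨x, hx⟩]
    exact (τ ⟨x, hx⟩).2
  · intro x hx
    rw [h1 ⟨x, hx⟩]
    exact h.step ⟨x, hx⟩
  · intro x hx y hy
    obtain ⟨n, hn⟩ := h.cycle ⟨x, hx⟩ ⟨y, hy⟩
    refine ⟨n, ?_⟩
    have h2 : τ' ^ n = Equiv.Perm.ofSubtype (τ ^ n) := (map_zpow Equiv.Perm.ofSubtype τ n).symm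
    rw [h2]
    have h3 := Equiv.Perm.ofSubtype_apply_coe (τ ^ n) (⟨x, hx⟩ : H)
    rw [hn] at h3
    exact h3

theorem result {G : Type u} [Group G] [Finite G] (A : Set G) (hA : ∀ x ∈ A, x⁻¹ ∈ A)
    (h :
      -- (a) the general case: a cycle through `H` which contains all `z`-edges, for `z ∈ Z`
      (∃ (H : Subgroup G) (τ : Equiv.Perm H) (Z : Set G), RunsThrough A H τ ∧
        (∀ z ∈ Z, AllEdges H τ z) ∧
        (8 ≤ Nat.card H ∨ (4 ≤ Nat.card H ∧ ∀ z ∈ Z, z * z ≠ 1)) ∧
        Subgroup.closure ((H : Set G) ∪ Squares A Z) = ⊤) ∨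
      -- (b) an element of order at least four
      (∃ a ∈ A, 4 ≤ orderOf a ∧ Subgroup.closure (Squares A {a, a⁻¹}) = ⊤) ∨
      -- (c) two involutions
      (∃ a ∈ A, ∃ b ∈ A, a * a = 1 ∧ b * b = 1 ∧ 4 ≤ orderOf (a * b) ∧
        Subgroup.closure (Squares A {a, b}) = ⊤) ∨
      -- (d) an involution and a further element
      (∃ z ∈ A, ∃ a ∈ A, z * z = 1 ∧ a * z ∈ Subgroup.zpowers (z * a) ∧
        z ∉ Subgroup.zpowers (z * a) ∧ 4 ≤ orderOf (z * a) ∧
        Subgroup.closure ({a} ∪ Squares A {z}) = ⊤) ∨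
      -- (e) an involution which normalises enough of `A`, for instance a central one
      (∃ z ∈ A, ∃ (H : Subgroup G) (τ : Equiv.Perm H), z * z = 1 ∧ z ∉ H ∧
        (∀ x ∈ H, z * x * z ∈ H) ∧ Even (Nat.card H) ∧ 4 ≤ Nat.card H ∧
        RunsThrough (Squares A {z}) H τ ∧ Subgroup.closure (Squares A {z}) = ⊤)) :
    ∃ a : Fin (Nat.card G) → G, ClosedListing A a := by
  suffices hs : ∃ σ : Equiv.Perm G, CycOn A Set.univ σ by
    obtain ⟨σ, hσ⟩ := hs
    exact listing_of_cyc hσ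
  rcases h with ⟨H, τ, Z, hτ, hZ, hsize, hgen⟩ | ⟨a, ha, h4, hgen⟩ |
    ⟨a, ha, b, hb, ha2, hb2, h4, hgen⟩ | ⟨z, hz, a, ha, hz2, haz, hzQ, h4, hgen⟩ |
    ⟨z, hz, H, τ, hz2, hzH, hconj, hev, h4, hτ, hgen⟩
  · obtain ⟨τ', h1, h2⟩ := cycOn_of_runs hτ
    refine lift A hA H τ' h1 Z ?_ (Squares A Z) (fun c hc => hc) hsize hgen
    intro z hz x hx
    rcases hZ z hz ⟨x, hx⟩ with h | ⟨y, hy, h⟩
    · left; rw [h2 ⟨x, hx⟩]; exact h
    · right
      have h3 : x * z = (y : G) := hy.symm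
      rw [h3, h2 y, h]
  · exact cyclic A hA a ha h4 hgen
  · exact dihedral A hA a b ha hb ha2 hb2 h4 hgen
  · exact alternating A hA z a hz ha hz2 haz hzQ h4 hgen
  · obtain ⟨τ', h1, _⟩ := cycOn_of_runs hτ
    exact normalising A hA z hz hz2 H hzH hconj hev h4 τ' h1 hgen

end Pool.Agent.Results.MP_688fd0_co.SquareLinks
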