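import Pool.Agent.N81.Cay.Walk

/-!
Problem MP_688fd0_co: closed sequences of generators whose partial products list every element of
the group at least once and at most twice.
-/

namespace Pool.Agent.Results.MP_688fd0_co.TwoVisits

open Pool.Agent.R759.HC Pool.Agent.N81.Cay

universe u

/-- The number of `k` with `1 ≤ k ≤ length l` and `a_1 ⋯ a_k = g`, where `l = (a_1, a_2, …)`. -/
noncomputable def visits {G : Type u} [Group G] (l : List G) (g : G) : ℕ :=
  Nat.card {k : Fin l.length // (l.take (k + 1)).prod = g}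

/-- `τ` runs once through the subgroup `H`, by right multiplications by elements of `A`: a closed
listing of `H` by elements of `A`, that is, a Hamiltonian cycle of `Cay(H, A ∩ H)` with a
direction. -/
structure RunsThrough {G : Type u} [Group G] (A : Set G) (H : Subgroup G) (τ : Equiv.Perm H) :
    Prop where
  step : ∀ x : H, (x : G)⁻¹ * (τ x : G) ∈ A
  cycle : ∀ x y : H, τ.SameCycle x y

theorem cycOn_of_runs {G : Type u} [Group G] {A : Set G} {H : Subgroup G}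
    {τ : Equiv.Perm H} (h : RunsThrough A H τ) :
    ∃ τ' : Equiv.Perm G, CycOn A (H : Set G) τ' := by
  classical
  let τ' : Equiv.Perm G := Equiv.Perm.ofSubtype τ
  have h1 : ∀ x : H, τ' x = τ x := fun x => Equiv.Perm.ofSubtype_apply_coe τ x
  refine ⟨τ', ⟨fun x hx => Equiv.Perm.ofSubtype_apply_of_not_mem τ hx, ?_, ?_, ?_⟩⟩
  · intro x hx
    rw [h1 ⟨x, hx⟩]
    exact (τ ⟨x, hx⟩).2
  · intro x hx
    rw [h1 ⟨x, hx⟩]
    exact h.step ⟨x, hx⟩
  · intro x hx y hy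
    obtain ⟨n, hn⟩ := h.cycle ⟨x, hx⟩ ⟨y, hy⟩
    refine ⟨n, ?_⟩
    have h2 : τ' ^ n = Equiv.Perm.ofSubtype (τ ^ n) := (map_zpow Equiv.Perm.ofSubtype τ n).symm
    rw [h2]
    have h3 := Equiv.Perm.ofSubtype_apply_coe (τ ^ n) (⟨x, hx⟩ : H)
    rw [hn] at h3
    exact h3

theorem result {G : Type u} [Group G] [Finite G] (A : Set G) (hA : ∀ x ∈ A, x⁻¹ ∈ A)
    (hgen : Subgroup.closure A = ⊤) (h : ℕ) (h4 : 4 ≤ h)
    (hh : (∃ (H : Subgroup G) (τ : Equiv.Perm H), RunsThrough A H τ ∧ Nat.card H = h) ∨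
      (∃ a ∈ A, orderOf a = h) ∨
      (∃ a ∈ A, ∃ b ∈ A, a ≠ b ∧ orderOf a = 2 ∧ orderOf b = 2 ∧
        Nat.card (Subgroup.closure ({a, b} : Set G)) = h)) :
    ∃ l : List G, (∀ a ∈ l, a ∈ A) ∧ l.prod = 1 ∧
      (l.length + 2) * h = Nat.card G * (h + 2) ∧ ∀ g : G, 1 ≤ visits l g ∧ visits l g ≤ 2 := by
  have key : ∃ (H : Subgroup G) (τ : Equiv.Perm G), CycOn A (H : Set G) τ ∧ Nat.card H = h := by
    rcases hh with ⟨H, τ, hτ, e⟩ | ⟨a, ha, e⟩ | ⟨a, ha, b, hb, hab, ha2, hb2, e⟩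
    · obtain ⟨τ', h1⟩ := cycOn_of_runs hτ
      exact ⟨H, τ', h1, e⟩
    · obtain ⟨τ, hτ, -⟩ := cyc_zpowers ha
      exact ⟨_, τ, hτ, by rw [Nat.card_zpowers]; exact e⟩
    · have ha1 : a ≠ 1 := by rintro rfl; rw [orderOf_one] at ha2; omega
      have hb1 : b ≠ 1 := by rintro rfl; rw [orderOf_one] at hb2; omega
      have haa : a * a = 1 := by rw [← pow_two, ← ha2]; exact pow_orderOf_eq_one a
      have hbb : b * b = 1 := by rw [← pow_two, ← hb2]; exact pow_orderOf_eq_one b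
      obtain ⟨τ, hτ, -⟩ := cyc_dihedral ha hb ha1 hb1 hab haa hbb
      exact ⟨_, τ, hτ, e⟩
  obtain ⟨H, τ, hτ, e⟩ := key
  subst e
  exact two_walk A hA hgen H τ hτ h4

end Pool.Agent.Results.MP_688fd0_co.TwoVisits
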